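import Pool.Agent.H23.UVD.Fin2
import Pool.Agent.H10.UVD.CLS
import Pool.Agent.H4.UVD.WFP
import Pool.Agent.H36.UVD.PD
import Pool.Agent.H15.ER.Main
import Pool.Agent.H2.WG.Main

/-!
# Universal schemes for Q1, closed sublevel sets, well ordered growth rates, Waring ranks
-/

open TensorProduct Module Filter Topology MvPolynomial

namespace Pool.Agent.H23.Kept.UniversalSchemes

open Pool.Agent.H12.Defect Pool.Agent.H14.MM Pool.Agent.H15.CX Pool.Agent.H23.UVD
open Pool.Agent.H15.ER Pool.Agent.H2.WG Pool.Agent.H14.RF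

universe u

/-- Let `V` be a nonempty set of nonempty closed subschemes of a finite scheme `Spec P`, and `U_N`
the least closed subscheme of `(Spec P) ^ N` which contains `Γ ^ N` for all `Γ` in `V`. Then
`δ(U_N)` is finite; `U_N` is the union of at most `(N + 1) ^ ((dim P) ^ 2)` of the schemes `Γ ^ N`,
`Γ` in `V`; the growth rates `L(Γ)`, `Γ` in `V`, are bounded; and with `D(X) = deg X + δ(X)`,
`(sup_V L) ^ N ≤ D(U_N)` for all `N ≥ 1` and `D(U_N) ^ (1 / N)` converges to `sup_V L`. -/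
def Limits (k : Type u) [Field k] : Prop :=
  ∀ (P : Type u) [CommRing P] [Algebra k P] [Module.Finite k P] (V : Set (Ideal P)),
    V.Nonempty → (∀ I ∈ V, I ≠ ⊤) →
    (∀ N : ℕ, defect k (UQ k V N) ≠ ⊤ ∧
      ∃ (p : ℕ) (I : Fin p → Ideal P), p ≤ (N + 1) ^ (finrank k P * finrank k P) ∧
        (∀ j, I j ∈ V) ∧ UI k V N = ⨅ j, RingHom.ker (famMap k fun _ : Fin N => I j)) ∧
    BddAbove ((fun I : Ideal P => Lam k (P ⧸ I)) '' V) ∧
    (∀ N : ℕ, 1 ≤ N → LS k V ^ N ≤ DD k (UQ k V N)) ∧
    Tendsto (fun N : ℕ => (DD k (UQ k V N) : ℝ) ^ (1 / (N : ℝ))) atTop (𝓝 (LS k V))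

/-- If a nonempty closed subscheme `Γ` of `Spec P` is in the closure of `V`, then `U_N` does not
change if `Γ` is added to `V`, and `L(Γ) ≤ sup_V L`. In particular, the set of all nonempty closed
subschemes `Γ` of `Spec P` with `L(Γ) ≤ r` contains all nonempty closed subschemes which are in its
closure. -/
def Closedness (k : Type u) [Field k] : Prop :=
  ∀ (P : Type u) [CommRing P] [Algebra k P] [Module.Finite k P] (d : ℕ) (I : Ideal P), I ≠ ⊤ →
    (∀ V : Set (Ideal P), (∀ J ∈ V, J ≠ ⊤) → InCl k V d I →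
      (∀ N : ℕ, UI k (insert I V) N = UI k V N) ∧ Lam k (P ⧸ I) ≤ LS k V) ∧
    (∀ r : ℝ, InCl k {J : Ideal P | J ≠ ⊤ ∧ Lam k (P ⧸ J) ≤ r} d I → Lam k (P ⧸ I) ≤ r)

/-- The set of all growth rates `L(Γ)` of nonempty finite schemes over `k` is well ordered. -/
def WellOrdered (k : Type u) [Field k] : Prop :=
  {r : ℝ | ∃ (A : Type u) (_ : CommRing A) (_ : Algebra k A), Module.Finite k A ∧
    Nontrivial A ∧ Lam k A = r}.IsWF

/-- `ε₀` has this property in degree `d`: if `D(Γ ^ n) < (d + ε₀) ^ n` for a single `n ≥ 1`, then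
`L(Γ) ≤ d`, for all nonempty finite schemes `Γ`. If `deg Γ = d` this is the limit of Q1 for all
`ε > 0`. -/
def GapAt (k : Type u) [Field k] (d : ℕ) (ε₀ : ℝ) : Prop :=
  ∀ (A : Type u) [CommRing A] [Algebra k A] [Module.Finite k A] [Nontrivial A] (n : ℕ), 1 ≤ n →
    (DD k (⨂[k] _ : Fin n, A) : ℝ) < (d + ε₀) ^ n →
    Lam k A ≤ d ∧ (finrank k A = d →
      ∀ ε : ℝ, 0 < ε → Tendsto (growthRatio k A ε) atTop (𝓝 0))

/-- the ring `k[x_1, …, x_d] ⧸ (x_1, …, x_d) ^ d` -/
def Fat (k : Type u) [Field k] (d : ℕ) : Type u :=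
  MvPolynomial (Fin d) k ⧸ (Ideal.span (Set.range (X : Fin d → MvPolynomial (Fin d) k))) ^ d

noncomputable instance (k : Type u) [Field k] (d : ℕ) : CommRing (Fat k d) :=
  Ideal.Quotient.commRing _

noncomputable instance (k : Type u) [Field k] (d : ℕ) : Algebra k (Fat k d) :=
  Ideal.Quotient.algebra k

/-- the coordinate ring of the scheme `P_d`, the disjoint union of `d` copies of
`Spec k[x_1, …, x_d] ⧸ (x_1, …, x_d) ^ d` -/
def Pts (k : Type u) [Field k] (d : ℕ) : Type u := Fin d → Fat k d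

noncomputable instance (k : Type u) [Field k] (d : ℕ) : CommRing (Pts k d) := Pi.commRing

noncomputable instance (k : Type u) [Field k] (d : ℕ) : Algebra k (Pts k d) :=
  Pi.algebra (Fin d) (fun _ => Fat k d)

/-- the set `V_d` of all nonempty closed subschemes of degree at most `d` of the scheme `P_d` -/
def VD (k : Type u) [Field k] (d : ℕ) : Set (Ideal (Pts k d)) :=
  {I | I ≠ ⊤ ∧ finrank k (Pts k d ⧸ I) ≤ d}

/-- For every nonempty finite `Γ = Spec A`, the numbers `δ(Γ ^ n)` are finite, `D(Γ ^ n) ^ (1 / n)`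
converges to `L(Γ)`, and the limit of Q1 holds for `Γ` and all `ε > 0` if and only if
`L(Γ) = deg Γ`. -/
def Growth (k : Type u) [Field k] : Prop :=
  ∀ (A : Type u) [CommRing A] [Algebra k A] [Module.Finite k A] [Nontrivial A],
    (∀ n : ℕ, defect k (⨂[k] _ : Fin n, A) ≠ ⊤) ∧
    Tendsto (fun n : ℕ => (DD k (⨂[k] _ : Fin n, A) : ℝ) ^ (1 / (n : ℝ))) atTop (𝓝 (Lam k A)) ∧
    ((∀ ε : ℝ, 0 < ε → Tendsto (growthRatio k A ε) atTop (𝓝 0)) ↔ Lam k A = finrank k A)

/-- the limit of Q1 for all nonempty finite schemes over `k` and all `ε > e`; Q1 for `e = 0` -/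
def Q1Above (k : Type u) [Field k] (e : ℝ) : Prop :=
  ∀ (A : Type u) [CommRing A] [Algebra k A] [Module.Finite k A] [Nontrivial A] (ε : ℝ),
    e < ε → Tendsto (growthRatio k A ε) atTop (𝓝 0)

/-- the universal schemes `U_N` for `V = V_d` satisfy: `D(U_N) ^ (1 / N)` converges to `d` -/
def UTends (k : Type u) [Field k] (d : ℕ) : Prop :=
  Tendsto (fun N : ℕ => (DD k (UQ k (VD k d) N) : ℝ) ^ (1 / (N : ℝ))) atTop (𝓝 d)

/-- `P_d` is finite, all finite schemes of degree at most `d` are closed subschemes of `P_d`, and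
some `ε₀ > 0` has the property of `GapAt` and, if `d ≥ 1`, the following are equivalent:
`L(Γ) ≤ d` for all `Γ` of degree at most `d`; `D(U_N) ^ (1 / N)` converges to `d` for `V = V_d`;
`D(U_N) < (d + ε₀) ^ N` for a single `N ≥ 1`. -/
def DegreeTest (k : Type u) [Field k] (d : ℕ) : Prop :=
  Module.Finite k (Pts k d) ∧
  (∀ (A : Type u) [CommRing A] [Algebra k A] [Module.Finite k A], finrank k A ≤ d →
    ∃ f : Pts k d →ₐ[k] A, Function.Surjective f) ∧
  ∃ ε₀ : ℝ, 0 < ε₀ ∧ GapAt k d ε₀ ∧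
    (1 ≤ d → List.TFAE [
      ∀ (A : Type u) [CommRing A] [Algebra k A] [Module.Finite k A] [Nontrivial A],
        finrank k A ≤ d → Lam k A ≤ d,
      UTends k d,
      ∃ N : ℕ, 1 ≤ N ∧ (DD k (UQ k (VD k d) N) : ℝ) < (d + ε₀) ^ N])

/-- the limit of Q1 for the apolar schemes of all nonzero forms over `k` and all `ε > e` -/
def FormsAbove (k : Type u) [Field k] (e : ℝ) : Prop :=
  ∀ (v c : ℕ) (φ : MvPolynomial (Fin v) k →ₗ[k] k), IsForm φ c → φ ≠ 0 → ∀ ε : ℝ,
    e < ε → Tendsto (growthRatio k (FormAlg φ) ε) atTop (𝓝 0)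

/-- For each nonzero form `F` over `k` and all `ε > e`, the Waring rank of the product of `N` copies
of `F` in disjoint sets of variables is at most `(deg Γ_F) ^ ((1 + ε) N)` for all large `N`, where
`Γ_F` is the apolar scheme of `F`. -/
def WaringAbove (k : Type u) [Field k] (e : ℝ) : Prop :=
  ∀ (v c : ℕ) (φ : MvPolynomial (Fin v) k →ₗ[k] k), IsForm φ c → φ ≠ 0 → ∀ ε : ℝ,
    e < ε → ∀ᶠ N : ℕ in atTop, (waringRank (pw φ (Fin N)) (c * N) : ℝ) ≤
      (finrank k (FormAlg φ) : ℝ) ^ ((1 + ε) * N)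

/-- For each nonzero form `F` of degree `c`, with apolar scheme `Γ_F`, and the Waring rank `W_N` of
the product of `N` copies of `F` in disjoint sets of variables: `D(Γ_F ^ N) ≤ (c N + 1) W_N` and
`W_N ^ (1 / N)` converges to `L(Γ_F)`. -/
def FormGrowth (k : Type u) [Field k] : Prop :=
  ∀ (v c : ℕ) (φ : MvPolynomial (Fin v) k →ₗ[k] k), IsForm φ c → φ ≠ 0 →
    (∀ N : ℕ, DD k (⨂[k] _ : Fin N, FormAlg φ) ≤
      (c * N + 1) * waringRank (pw φ (Fin N)) (c * N)) ∧
    Tendsto (fun N : ℕ => (waringRank (pw φ (Fin N)) (c * N) : ℝ) ^ (1 / (N : ℝ))) atTop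
      (𝓝 (Lam k (FormAlg φ)))

/-- There are real numbers `ε₀(d) > e` such that are equivalent: the limit of Q1 for all nonempty
finite schemes over `k` and all `ε > e`; the same over `K`; for each elementary Gorenstein finite
scheme `Γ` over `K` the limit of Q1 for the single number `ε = ε₀(deg Γ)`; the limit of Q1 for the
apolar schemes of all nonzero forms over `k` and all `ε > e`; the upper bounds of `WaringAbove` for
Waring ranks over `k`. -/
def OneExponent (K k : Type u) [Field K] [Field k] (e : ℝ) : Prop :=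
  ∃ ε₀ : ℕ → ℝ, (∀ d, e < ε₀ d) ∧
    List.TFAE [Q1Above k e, Q1Above K e,
      ∀ (A : Type u) [CommRing A] [Algebra K A] [Module.Finite K A] [Nontrivial A],
        IsGor K A → IsElementary K A → Tendsto (growthRatio K A (ε₀ (finrank K A))) atTop (𝓝 0),
      FormsAbove k e, WaringAbove k e]

/-- Let `k` be algebraically closed, `D(X) = deg X + δ(X)` (the least degree of a smoothable scheme
which contains the finite scheme `X`) and, for a nonempty finite scheme `Γ` over `k`, let `L(Γ)` be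
the limit of `D(Γ ^ n) ^ (1 / n)`; the limit exists, and the limit of Q1 holds for `Γ` and all
`ε > 0` if and only if `L(Γ) = deg Γ`.

(1) For a nonempty set `V` of nonempty closed subschemes of a finite scheme `Spec P`, let `U_N` be
the least closed subscheme of `(Spec P) ^ N` which contains `Γ ^ N` for all `Γ` in `V`. It is the
union of at most `(N + 1) ^ ((deg P) ^ 2)` of the `Γ ^ N`, and `D(U_N) ^ (1 / N)` converges to
`sup_V L`, which is finite; also `(sup_V L) ^ N ≤ D(U_N)` for `N ≥ 1`.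

(2) If `Γ` is in the closure of `V` then `U_N` contains `Γ ^ N` for all `N` and `L(Γ) ≤ sup_V L`.
So the sets `{Γ | L(Γ) ≤ r}` are closed.

(3) The set of the growth rates `L(Γ)` of all nonempty finite schemes over `k` is well ordered.

(4) For every `d` there is `ε₀ > 0` such that for all nonempty finite `Γ`, if
`D(Γ ^ n) < (d + ε₀) ^ n` for a single `n ≥ 1`, then `L(Γ) ≤ d`; and for `d ≥ 1` are equivalent:
`L(Γ) ≤ d` for all `Γ` of degree at most `d`; `D(U_N) ^ (1 / N)` converges to `d` for `V = V_d`;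
`D(U_N) < (d + ε₀) ^ N` for a single `N ≥ 1`. Here `V_d` is the set of all nonempty closed
subschemes of degree at most `d` of `P_d`; all finite schemes of degree at most `d` are closed
subschemes of `P_d`.

(5) Q1 holds over `k` if and only if, for every `d ≥ 1`, `D(U_N) ^ (1 / N)` converges to `d` for
`V = V_d`.

(6) For each nonzero form `F` of degree `c`, with apolar scheme `Γ_F`, and the Waring rank `W_N` of
the product of `N` copies of `F` in disjoint sets of variables: `D(Γ_F ^ N) ≤ (c N + 1) W_N` and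
`W_N ^ (1 / N)` converges to `L(Γ_F)`.

(7) For each algebraically closed subfield `K` of `k` and each real `e ≥ 0` there are real numbers
`ε₀(d) > e` such that are equivalent: the limit of Q1 for all nonempty finite schemes over `k` and
all `ε > e`; the same over `K`; for each elementary Gorenstein finite scheme `Γ` over `K` the limit
of Q1 for the single number `ε = ε₀(deg Γ)`; the limit of Q1 for the apolar schemes `Γ_F` of all
nonzero forms over `k` and all `ε > e`; `W_N ≤ (deg Γ_F) ^ ((1 + ε) N)` for all nonzero forms over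
`k`, all `ε > e` and all large `N`. -/
theorem result (k : Type u) [Field k] [IsAlgClosed k] :
    Growth k ∧
    Limits k ∧
    Closedness k ∧
    WellOrdered k ∧
    (∀ d : ℕ, DegreeTest k d) ∧
    (Q1Above k 0 ↔ ∀ d : ℕ, 1 ≤ d → UTends k d) ∧
    FormGrowth k ∧
    (∀ (K : Type u) [Field K] [Algebra K k] [IsAlgClosed K] (e : ℝ), 0 ≤ e →
      OneExponent K k e) := by
  have hLIM : T_LIM k := pf_LIM k
  have hCLS : T_CLS k := Pool.Agent.H10.UVD.pf_CLS k
  have hCLO : T_CLO k := pf_CLO k hCLS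
  have hWFP : T_WFP k := Pool.Agent.H4.UVD.pf_WFP k hCLO
  have hPD : T_PD k := Pool.Agent.H36.UVD.pf_PD k
  have hPDF : T_PDF k := Pool.Agent.H36.UVD.pf_PDF k
  have hWF : T_WF k := pf_WF k hWFP hPD hPDF
  have hdd : ∀ (A : Type u) [CommRing A] [Algebra k A] [Module.Finite k A] (n : ℕ),
      DD k (⨂[k] _ : Fin n, A) = cdeg k A n := by
    intro A _ _ _ n
    rw [DD, cdeg, Pool.Agent.H14.RF.finrank_power]
  have hinf : Infinite k := IsAlgClosed.instInfinite
  refine ⟨?_, ?_, ?_, hWF, ?_, ?_, ?_, ?_⟩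
  · intro A _ _ _ _
    refine ⟨fun n => (Pool.Agent.H15.Defect.defect_eq (dle_cdeg (k := k) (A := A) n)).1, ?_,
      q1_iff⟩
    have h1 : (fun n : ℕ => (DD k (⨂[k] _ : Fin n, A) : ℝ) ^ (1 / (n : ℝ))) =
        fun n : ℕ => (cdeg k A n : ℝ) ^ (1 / (n : ℝ)) := by
      funext n
      rw [hdd]
    rw [h1]
    exact tendsto_cdeg
  · intro P _ _ _ V hV hV'
    obtain ⟨h1, h2, h3, h4⟩ := hLIM P V hV hV'
    exact ⟨fun N => ⟨h1 N, exists_union k V N⟩, h3, h2, h4⟩
  · intro P _ _ _ d I hI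
    have key : ∀ V : Set (Ideal P), (∀ J ∈ V, J ≠ ⊤) → InCl k V d I →
        (∀ N : ℕ, UI k (insert I V) N = UI k V N) ∧ Lam k (P ⧸ I) ≤ LS k V ∧
          V.Nonempty := by
      intro V hV hcl
      have hne : V.Nonempty := by
        by_contra h
        rw [Set.not_nonempty_iff_eq_empty] at h
        obtain ⟨T, -, hT⟩ := hcl
        have h1 := hT 1 (by
          intro I' hI'
          rw [h] at hI'
          exact absurd hI' (Set.notMem_empty _))
        rw [map_one] at h1
        exact one_ne_zero h1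
      have h2 := closed_all k hCLS P V d I hne hV hI hcl
      exact ⟨h2.2, h2.1, hne⟩
    refine ⟨fun V hV hcl => ⟨(key V hV hcl).1, (key V hV hcl).2.1⟩, ?_⟩
    intro r hcl
    obtain ⟨-, h2, hne⟩ := key _ (fun J hJ => hJ.1) hcl
    refine h2.trans (csSup_le (hne.image _) ?_)
    rintro _ ⟨J, hJ, rfl⟩
    exact hJ.2
  · intro d
    obtain ⟨ε, h0, h⟩ := gap_vals k hWF d
    have hgap : GapAt k d ε := by
      intro A _ _ _ _ n hn hlt
      have h1 : Lam k A ≤ d := by
        refine h A ?_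
        have h1 : Lam k A ^ n ≤ DD k (⨂[k] _ : Fin n, A) := by
          rw [hdd]
          exact Lam_pow_le hn
        exact lt_of_pow_lt_pow_left₀ n (by positivity) (lt_of_le_of_lt h1 hlt)
      refine ⟨h1, fun hA ε' hε' => q1_iff.mpr (le_antisymm ?_ finrank_le_Lam) ε' hε'⟩
      rw [hA]
      exact h1
    exact ⟨hPDF d, fun A _ _ _ hA => hPD d A hA, ε, h0, hgap,
      fun hd => q1_test k hLIM hPD hPDF d hd h0 h⟩
  · exact q1_iff_all k (Pool.Agent.H74.UVD.pf_Q1D k hLIM hPD hPDF)
  · intro v c φ hφ hφ0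
    have h1 := hφ.finite
    have h2 := nontrivial_formAlg hφ0
    refine ⟨fun N => ?_, ?_⟩
    · rw [hdd]
      exact (law_upper hφ N).2
    · have h3 : Pool.Agent.H2.WG.gr φ c = Lam k (FormAlg φ) :=
        tendsto_nhds_unique (tendsto_Dn hφ hφ0) tendsto_cdeg
      rw [← h3]
      exact tendsto_Wn hφ hφ0
  · intro K _ _ _ e he
    obtain ⟨ε₀, h1, h2⟩ := exists_exponents K he
    refine ⟨ε₀, h1, ?_⟩
    tfae_have 1 ↔ 2 := (field_independence (K := K) (k := k) he).symm
    tfae_have 2 → 3 := fun h A _ _ _ _ _ _ => h A _ (h1 _)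
    tfae_have 3 → 2 := fun h => all_of_elementary_gor he
      fun A _ _ _ _ hG hE => h2 A (h A hG hE)
    tfae_have 1 ↔ 4 := all_iff_forms he
    tfae_have 4 ↔ 5 := by
      constructor
      · intro h v c φ hφ hφ0
        exact (waring_iff_gr hφ hφ0 he).mpr ((limit_iff_gr hφ hφ0 he).mp (h v c φ hφ hφ0))
      · intro h v c φ hφ hφ0
        exact (limit_iff_gr hφ hφ0 he).mpr ((waring_iff_gr hφ hφ0 he).mp (h v c φ hφ hφ0))
    tfae_finish

end Pool.Agent.H23.Kept.UniversalSchemes
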